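import Pool.Agent.helper38.TA.SpecA

set_option autoImplicit false

open Complex MeasureTheory Set

namespace Pool.Agent.TA

open Pool.Agent.BA (Par GG kl kf vf fV Bw Den PP wt lam gpf rgz)
open Pool.Agent.ZT (fP Bn NN Cen GF hm Sqf cmf lamA muA prm Eta NwD Cof thC LaC LfC FEQ Prs)

/-- the ratio of the geometric series -/
theorem GBA_r : (0 : ℝ) < (2 : ℝ) ^ (-(21 / 100) : ℝ) ∧ (2 : ℝ) ^ (-(21 / 100) : ℝ) < 1 :=
  ⟨by positivity, Real.rpow_lt_one_of_one_lt_of_neg (by norm_num) (by norm_num)⟩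

theorem GBA_geom (N : ℕ) : ∑ k ∈ Finset.range N, ((2 : ℝ) ^ (-(21 / 100) : ℝ)) ^ k ≤
    (1 - (2 : ℝ) ^ (-(21 / 100) : ℝ))⁻¹ := by
  have h := GBA_r
  rw [← tsum_geometric_of_lt_one h.1.le h.2]
  exact (summable_geometric_of_lt_one h.1.le h.2).sum_le_tsum _ (fun i _ => by positivity)

theorem GBA_piece (h : ℝ → ℝ) (hc : ContinuousOn h (Ioi 0)) (h0 : ∀ y, 0 ≤ h y) (β K Y : ℝ)
    (hY : 1 ≤ Y) (hd : ∫ y in Y..(2 * Y), h y ≤ K * Y ^ β) :
    ∫ y in Y..(2 * Y), y ^ (-(49 / 100) : ℝ) * h y ≤ K * Y ^ (β - 49 / 100) := by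
  have hY0 : 0 < Y := by linarith
  have hle : Y ≤ 2 * Y := by linarith
  have hsub : uIcc Y (2 * Y) ⊆ Ioi 0 := by
    rw [uIcc_of_le hle]
    exact fun y hy => lt_of_lt_of_le hY0 hy.1
  have hi : IntervalIntegrable h volume Y (2 * Y) := (hc.mono hsub).intervalIntegrable
  have hi1 : IntervalIntegrable (fun y => y ^ (-(49 / 100) : ℝ) * h y) volume Y (2 * Y) := by
    apply ContinuousOn.intervalIntegrable
    refine ContinuousOn.mul ?_ (hc.mono hsub)
    exact fun y hy => (Real.continuousAt_rpow_const y _ (Or.inl (hsub hy).ne')).continuousWithinAt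
  have h1 : ∫ y in Y..(2 * Y), y ^ (-(49 / 100) : ℝ) * h y ≤ ∫ y in Y..(2 * Y), Y ^ (-(49 / 100) : ℝ) * h y := by
    refine intervalIntegral.integral_mono_on hle hi1 (hi.const_mul _) fun y hy => ?_
    exact mul_le_mul_of_nonneg_right (Real.rpow_le_rpow_of_nonpos hY0 hy.1 (by norm_num)) (h0 y)
  rw [intervalIntegral.integral_const_mul] at h1
  calc _ ≤ _ := h1
    _ ≤ Y ^ (-(49 / 100) : ℝ) * (K * Y ^ β) := mul_le_mul_of_nonneg_left hd (by positivity)
    _ = K * Y ^ (β - 49 / 100) := by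
        rw [sub_eq_add_neg, Real.rpow_add hY0]
        ring

theorem GBA_dy (h : ℝ → ℝ) (hc : ContinuousOn h (Ioi 0)) (h0 : ∀ y, 0 ≤ h y) (β K Z : ℝ)
    (hβ : β ≤ 7 / 25) (hK : 0 ≤ K) (hZ : 1 ≤ Z) (hd : ∀ Y, 1 ≤ Y → ∫ y in Y..(2 * Y), h y ≤ K * Y ^ β)
    (hi : IntegrableOn (fun y => y ^ (-(49 / 100) : ℝ) * h y) (Ioi Z)) :
    ∫ y in Ioi Z, y ^ (-(49 / 100) : ℝ) * h y ≤
      K * (1 - (2 : ℝ) ^ (-(21 / 100) : ℝ))⁻¹ * Z ^ (β - 49 / 100) := by
  have hZ0 : 0 < Z := by linarith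
  have htend : Filter.Tendsto (fun N : ℕ => (2 : ℝ) ^ N * Z) Filter.atTop Filter.atTop :=
    (tendsto_pow_atTop_atTop_of_one_lt (by norm_num)).atTop_mul_const hZ0
  have hlim := intervalIntegral_tendsto_integral_Ioi Z hi htend
  refine le_of_tendsto' hlim fun N => ?_
  have hsub : ∀ k : ℕ, uIcc ((2 : ℝ) ^ k * Z) ((2 : ℝ) ^ (k + 1) * Z) ⊆ Ioi 0 := by
    intro k
    have : (2 : ℝ) ^ k * Z ≤ (2 : ℝ) ^ (k + 1) * Z := by
      apply mul_le_mul_of_nonneg_right _ hZ0.le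
      exact pow_le_pow_right₀ (by norm_num) (Nat.le_succ k)
    rw [uIcc_of_le this]
    exact fun y hy => lt_of_lt_of_le (by positivity) hy.1
  have hint : ∀ k < N, IntervalIntegrable (fun y => y ^ (-(49 / 100) : ℝ) * h y) volume
      ((2 : ℝ) ^ k * Z) ((2 : ℝ) ^ (k + 1) * Z) := by
    intro k _
    apply ContinuousOn.intervalIntegrable
    refine ContinuousOn.mul ?_ (hc.mono (hsub k))
    exact fun y hy => (Real.continuousAt_rpow_const y _ (Or.inl (hsub k hy).ne')).continuousWithinAt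
  have hsum := intervalIntegral.sum_integral_adjacent_intervals (μ := volume)
    (f := fun y => y ^ (-(49 / 100) : ℝ) * h y) (a := fun k : ℕ => (2 : ℝ) ^ k * Z) (n := N) hint
  simp only [pow_zero, one_mul] at hsum
  rw [← hsum]
  have hk : ∀ k ∈ Finset.range N, ∫ y in ((2 : ℝ) ^ k * Z)..((2 : ℝ) ^ (k + 1) * Z), y ^ (-(49 / 100) : ℝ) * h y ≤
      K * Z ^ (β - 49 / 100) * ((2 : ℝ) ^ (-(21 / 100) : ℝ)) ^ k := by
    intro k _
    have h1k : (1 : ℝ) ≤ (2 : ℝ) ^ k := one_le_pow₀ (by norm_num)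
    have hY : (1 : ℝ) ≤ (2 : ℝ) ^ k * Z := by nlinarith
    have he : (2 : ℝ) ^ (k + 1) * Z = 2 * ((2 : ℝ) ^ k * Z) := by ring
    rw [he]
    refine (GBA_piece h hc h0 β K _ hY (hd _ hY)).trans ?_
    rw [Real.mul_rpow (by positivity) hZ0.le, ← Real.rpow_natCast, ← Real.rpow_natCast, ← Real.rpow_mul (by norm_num),
      ← Real.rpow_mul (by norm_num)]
    have h2 : (2 : ℝ) ^ ((k : ℝ) * (β - 49 / 100)) ≤ (2 : ℝ) ^ (-(21 / 100) * (k : ℝ)) := by
      apply Real.rpow_le_rpow_of_exponent_le (by norm_num)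
      have : (0 : ℝ) ≤ k := Nat.cast_nonneg k
      nlinarith
    have h3 : 0 ≤ K * Z ^ (β - 49 / 100) := by positivity
    calc K * ((2 : ℝ) ^ ((k : ℝ) * (β - 49 / 100)) * Z ^ (β - 49 / 100)) =
        K * Z ^ (β - 49 / 100) * (2 : ℝ) ^ ((k : ℝ) * (β - 49 / 100)) := by ring
      _ ≤ _ := mul_le_mul_of_nonneg_left h2 h3
  refine (Finset.sum_le_sum hk).trans ?_
  rw [← Finset.mul_sum]
  have h3 : 0 ≤ K * Z ^ (β - 49 / 100) := by positivity
  calc _ ≤ K * Z ^ (β - 49 / 100) * (1 - (2 : ℝ) ^ (-(21 / 100) : ℝ))⁻¹ :=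
        mul_le_mul_of_nonneg_left (GBA_geom N) h3
    _ = _ := by ring

/-- the part near zero -/
theorem GBA_low (h : ℝ → ℝ) (hc : ContinuousOn h (Ioi 0)) (K x : ℝ) (hK : 0 ≤ K) (hx : 0 < x) (hx1 : x ≤ 1)
    (hb : ∀ y, 0 < y → h y ≤ K * (y ^ (-(1 / 20) : ℝ) + y ^ (-(3 / 5) : ℝ))) :
    ∫ y in x..1, y ^ (-(49 / 100) : ℝ) * h y ≤ K * (200 / 9) * x ^ (-(9 / 100) : ℝ) := by
  have hsub : uIcc x 1 ⊆ Ioi 0 := by
    rw [uIcc_of_le hx1]
    exact fun y hy => lt_of_lt_of_le hx hy.1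
  have hi1 : IntervalIntegrable (fun y => y ^ (-(49 / 100) : ℝ) * h y) volume x 1 := by
    apply ContinuousOn.intervalIntegrable
    refine ContinuousOn.mul ?_ (hc.mono hsub)
    exact fun y hy => (Real.continuousAt_rpow_const y _ (Or.inl (hsub hy).ne')).continuousWithinAt
  have hi2 : IntervalIntegrable (fun y => 2 * K * y ^ (-(109 / 100) : ℝ)) volume x 1 := by
    apply ContinuousOn.intervalIntegrable
    refine ContinuousOn.mul continuousOn_const ?_
    exact fun y hy => (Real.continuousAt_rpow_const y _ (Or.inl (hsub hy).ne')).continuousWithinAt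
  have h1 : ∫ y in x..1, y ^ (-(49 / 100) : ℝ) * h y ≤ ∫ y in x..1, 2 * K * y ^ (-(109 / 100) : ℝ) := by
    refine intervalIntegral.integral_mono_on hx1 hi1 hi2 fun y hy => ?_
    have hy0 : 0 < y := lt_of_lt_of_le hx hy.1
    have e1 : y ^ (-(1 / 20) : ℝ) ≤ y ^ (-(3 / 5) : ℝ) :=
      Real.rpow_le_rpow_of_exponent_ge hy0 hy.2 (by norm_num)
    have e2 : y ^ (-(109 / 100) : ℝ) = y ^ (-(49 / 100) : ℝ) * y ^ (-(3 / 5) : ℝ) := by
      rw [← Real.rpow_add hy0]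
      norm_num
    have e3 : 0 ≤ y ^ (-(49 / 100) : ℝ) := by positivity
    calc y ^ (-(49 / 100) : ℝ) * h y ≤ y ^ (-(49 / 100) : ℝ) * (K * (y ^ (-(1 / 20) : ℝ) + y ^ (-(3 / 5) : ℝ))) :=
          mul_le_mul_of_nonneg_left (hb y hy0) e3
      _ ≤ y ^ (-(49 / 100) : ℝ) * (K * (y ^ (-(3 / 5) : ℝ) + y ^ (-(3 / 5) : ℝ))) := by
          apply mul_le_mul_of_nonneg_left _ e3
          apply mul_le_mul_of_nonneg_left _ hK
          linarith
      _ = 2 * K * y ^ (-(109 / 100) : ℝ) := by rw [e2]; ring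
  have h2 : ∫ y in x..1, 2 * K * y ^ (-(109 / 100) : ℝ) = 2 * K * ((1 - x ^ (-(9 / 100) : ℝ)) / (-(9 / 100))) := by
    rw [intervalIntegral.integral_const_mul, integral_rpow]
    · norm_num
    · right
      refine ⟨by norm_num, ?_⟩
      intro h
      exact absurd (hsub h) (by simp)
  rw [h2] at h1
  refine h1.trans ?_
  have : 2 * K * ((1 - x ^ (-(9 / 100) : ℝ)) / (-(9 / 100))) = K * (200 / 9) * x ^ (-(9 / 100) : ℝ) - K * (200 / 9) := by
    ring
  rw [this]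
  linarith

theorem GBA_cv (h : ℝ → ℝ) (x : ℝ) (hx : 0 < x) :
    ∫ t in Ioi (1 : ℝ), t ^ (-(49 / 100) : ℝ) * h (t * x) =
      x ^ (-(51 / 100) : ℝ) * ∫ y in Ioi x, y ^ (-(49 / 100) : ℝ) * h y := by
  have h1 := integral_comp_mul_right_Ioi (fun y => (y / x) ^ (-(49 / 100) : ℝ) * h y) 1 hx
  have h2 : ∫ t in Ioi (1 : ℝ), t ^ (-(49 / 100) : ℝ) * h (t * x) =
      ∫ t in Ioi (1 : ℝ), (fun y => (y / x) ^ (-(49 / 100) : ℝ) * h y) (t * x) := by
    refine setIntegral_congr_fun measurableSet_Ioi fun t _ => ?_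
    simp only
    rw [mul_div_cancel_right₀ _ hx.ne']
  rw [h2, h1, one_mul, smul_eq_mul]
  have h3 : ∫ y in Ioi x, (y / x) ^ (-(49 / 100) : ℝ) * h y =
      x ^ (49 / 100 : ℝ) * ∫ y in Ioi x, y ^ (-(49 / 100) : ℝ) * h y := by
    rw [← integral_const_mul]
    refine setIntegral_congr_fun measurableSet_Ioi fun y hy => ?_
    have hy0 : 0 < y := lt_trans hx hy
    rw [Real.div_rpow hy0.le hx.le, Real.rpow_neg hx.le (49 / 100), div_inv_eq_mul]
    ring
  rw [h3, ← mul_assoc]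
  have h4 : x⁻¹ * x ^ (49 / 100 : ℝ) = x ^ (-(51 / 100) : ℝ) := by
    rw [← Real.rpow_neg_one, ← Real.rpow_add hx]
    norm_num
  rw [h4]

/-- the main bound for one function `h = ‖g_i‖` -/
theorem GBA_main (h : ℝ → ℝ) (hc : ContinuousOn h (Ioi 0)) (h0 : ∀ y, 0 ≤ h y) (β K x : ℝ)
    (hβ : β ≤ 7 / 25) (hK : 0 ≤ K) (hx : 0 < x) (hd : ∀ Y, 1 ≤ Y → ∫ y in Y..(2 * Y), h y ≤ K * Y ^ β)
    (hb : ∀ y, 0 < y → h y ≤ K * (y ^ (-(1 / 20) : ℝ) + y ^ (-(3 / 5) : ℝ)))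
    (hi : ∀ Z, 0 < Z → IntegrableOn (fun y => y ^ (-(49 / 100) : ℝ) * h y) (Ioi Z)) :
    (x ≤ 1 → ∫ t in Ioi (1 : ℝ), t ^ (-(49 / 100) : ℝ) * h (t * x) ≤
      (200 / 9 + (1 - (2 : ℝ) ^ (-(21 / 100) : ℝ))⁻¹) * K * x ^ (-(3 / 5) : ℝ)) ∧
    (1 ≤ x → ∫ t in Ioi (1 : ℝ), t ^ (-(49 / 100) : ℝ) * h (t * x) ≤
      (200 / 9 + (1 - (2 : ℝ) ^ (-(21 / 100) : ℝ))⁻¹) * K * x ^ (β - 1)) := by
  have hr := GBA_r
  have hr1 : 0 < (1 - (2 : ℝ) ^ (-(21 / 100) : ℝ))⁻¹ := inv_pos.mpr (by linarith [hr.2])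
  set R := (1 - (2 : ℝ) ^ (-(21 / 100) : ℝ))⁻¹ with hR
  rw [GBA_cv h x hx]
  refine ⟨fun hx1 => ?_, fun hx1 => ?_⟩
  · have hspl : ∫ y in Ioi x, y ^ (-(49 / 100) : ℝ) * h y =
        (∫ y in x..1, y ^ (-(49 / 100) : ℝ) * h y) + ∫ y in Ioi (1 : ℝ), y ^ (-(49 / 100) : ℝ) * h y := by
      rw [intervalIntegral.integral_of_le hx1, ← setIntegral_union (Ioc_disjoint_Ioi le_rfl) measurableSet_Ioi
        ((hi x hx).mono_set Ioc_subset_Ioi_self) (hi 1 one_pos), Ioc_union_Ioi_eq_Ioi hx1]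
    have h1 := GBA_low h hc K x hK hx hx1 hb
    have h2 := GBA_dy h hc h0 β K 1 hβ hK le_rfl hd (hi 1 one_pos)
    rw [Real.one_rpow, mul_one] at h2
    rw [hspl]
    have e1 : x ^ (-(3 / 5) : ℝ) = x ^ (-(51 / 100) : ℝ) * x ^ (-(9 / 100) : ℝ) := by
      rw [← Real.rpow_add hx]
      norm_num
    have e2 : 1 ≤ x ^ (-(9 / 100) : ℝ) := Real.one_le_rpow_of_pos_of_le_one_of_nonpos hx hx1 (by norm_num)
    have e3 : 0 < x ^ (-(51 / 100) : ℝ) := by positivity
    have e4 : K * R ≤ K * R * x ^ (-(9 / 100) : ℝ) := le_mul_of_one_le_right (by positivity) e2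
    calc x ^ (-(51 / 100) : ℝ) * ((∫ y in x..1, y ^ (-(49 / 100) : ℝ) * h y) +
          ∫ y in Ioi (1 : ℝ), y ^ (-(49 / 100) : ℝ) * h y)
        ≤ x ^ (-(51 / 100) : ℝ) * (K * (200 / 9) * x ^ (-(9 / 100) : ℝ) + K * R * x ^ (-(9 / 100) : ℝ)) := by
          apply mul_le_mul_of_nonneg_left _ e3.le
          exact add_le_add h1 (h2.trans e4)
      _ = (200 / 9 + R) * K * x ^ (-(3 / 5) : ℝ) := by rw [e1]; ring
  · have h2 := GBA_dy h hc h0 β K x hβ hK hx1 hd (hi x hx)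
    have e3 : 0 < x ^ (-(51 / 100) : ℝ) := by positivity
    have e1 : x ^ (β - 1) = x ^ (-(51 / 100) : ℝ) * x ^ (β - 49 / 100) := by
      rw [← Real.rpow_add hx]
      congr 1
      ring
    have e5 : 0 ≤ K * x ^ (β - 1) := by positivity
    calc x ^ (-(51 / 100) : ℝ) * ∫ y in Ioi x, y ^ (-(49 / 100) : ℝ) * h y
        ≤ x ^ (-(51 / 100) : ℝ) * (K * R * x ^ (β - 49 / 100)) := mul_le_mul_of_nonneg_left h2 e3.le
      _ = R * (K * x ^ (β - 1)) := by rw [e1]; ring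
      _ ≤ (200 / 9 + R) * (K * x ^ (β - 1)) := mul_le_mul_of_nonneg_right (by linarith) e5
      _ = _ := by ring

theorem GBA (hINA : INA_stmt) (zABL : Pool.Agent.ZT.ABL_stmt) : GBA_stmt := by
  intro n V _ _ g C1 C₀ hg
  have hC1 : 0 < C1 := hg.pos
  obtain ⟨C2, hC2, h2⟩ := hINA n V g C1 hg
  have hr := GBA_r
  have hr1 : 0 < (1 - (2 : ℝ) ^ (-(21 / 100) : ℝ))⁻¹ := inv_pos.mpr (by linarith [hr.2])
  set R := (1 - (2 : ℝ) ^ (-(21 / 100) : ℝ))⁻¹ with hR
  refine ⟨|C₀| * ((200 / 9 + R) * (C1 + C2)) + 1, by positivity, ?_⟩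
  intro a b hab L v x hL hx
  have hC0 : 0 < C₀ := hab.pos
  rw [abs_of_pos hC0]
  have hM : 0 ≤ MX n L (g 0 v) := by
    unfold MX
    apply setIntegral_nonneg measurableSet_Ioi
    intro y hy
    apply mul_nonneg _ (norm_nonneg _)
    unfold Bn
    split_ifs
    · exact Real.rpow_nonneg (le_of_lt hy) _
    · have h1 : (1 : ℝ) < y := by
        rename_i hh
        exact not_le.mp hh
      have : 0 ≤ Real.log y := Real.log_nonneg h1.le
      positivity
  set M := MX n L (g 0 v) with hMd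
  have h1b := hg.bd L v hL
  -- the common statement for `j = 0, 1`
  have key : ∀ j : ℕ, j ≤ 1 →
      (x ≤ 1 → ‖GX g a j v x‖ ≤ (C₀ * ((200 / 9 + R) * (C1 + C2)) + 1) * x ^ (-(3 / 5) : ℝ) * M) ∧
      (1 ≤ x → ‖GX g a j v x‖ ≤ (C₀ * ((200 / 9 + R) * (C1 + C2)) + 1) * x ^ (7 * ((j + 1 : ℕ) : ℝ) / 50 - 1) * M) := by
    intro j hj
    have hder := hg.der j v
    have hder1 := hg.der (j + 1) v
    have hdec := hg.dec j v
    have hdec1 := hg.dec (j + 1) v
    have hcont1 : ContinuousOn (g (j + 1) v) (Ioi 0) :=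
      fun y hy => (hder1 y hy).continuousAt.continuousWithinAt
    have hcn : ContinuousOn (fun y => ‖g (j + 1) v y‖) (Ioi 0) := hcont1.norm
    -- Abel summation
    have hA := zABL a C₀ (fun t => g j v (t * x)) (fun t => g (j + 1) v (t * x)) hC0.le hab.a0 hab.bda hab.psa
      (by
        intro t ht
        have hx' : (x : ℂ) ≠ 0 := by exact_mod_cast hx.ne'
        have ht' : (t : ℂ) ≠ 0 := by exact_mod_cast ht.ne'
        have hd : HasDerivAt (fun y : ℝ => y * x) x t := hasDerivAt_mul_const x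
        have h3 := HasDerivAt.scomp t (hder (t * x) (mul_pos ht hx)) hd
        refine h3.congr_deriv ?_
        rw [Complex.real_smul]
        push_cast
        field_simp)
      (by
        intro t ht
        have ht' : (0 : ℝ) < t := ht
        have hcx : ContinuousAt (fun y : ℝ => y * x) t := (continuous_mul_const x).continuousAt
        exact (ContinuousAt.comp (f := fun y : ℝ => y * x) (g := g (j + 1) v)
          (hder1 (t * x) (mul_pos ht' hx)).continuousAt hcx).continuousWithinAt)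
      (by
        obtain ⟨c1, hc1⟩ := hdec 3 (by norm_num)
        obtain ⟨c2, hc2⟩ := hdec1 3 (by norm_num)
        refine ⟨max (c1 * x ^ (-3 : ℝ)) (c2 * x ^ (-3 : ℝ)), fun t ht => ⟨?_, ?_⟩⟩
        · refine (hc1 (t * x) (by positivity)).trans ?_
          rw [Real.mul_rpow ht.le hx.le]
          calc c1 * (t ^ (-3 : ℝ) * x ^ (-3 : ℝ)) = (c1 * x ^ (-3 : ℝ)) * t ^ (-3 : ℝ) := by ring
            _ ≤ _ := mul_le_mul_of_nonneg_right (le_max_left _ _) (by positivity)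
        · refine (hc2 (t * x) (by positivity)).trans ?_
          rw [Real.mul_rpow ht.le hx.le]
          calc c2 * (t ^ (-3 : ℝ) * x ^ (-3 : ℝ)) = (c2 * x ^ (-3 : ℝ)) * t ^ (-3 : ℝ) := by ring
            _ ≤ _ := mul_le_mul_of_nonneg_right (le_max_right _ _) (by positivity))
    have hA1 := hA.2.1
    have hGS : GX g a j v x = ∑' d : ℕ, a d * g j v (d * x) := rfl
    rw [← hGS] at hA1
    -- integrability
    have hint : ∀ Z, 0 < Z → IntegrableOn (fun y => y ^ (-(49 / 100) : ℝ) * ‖g (j + 1) v y‖) (Ioi Z) := by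
      intro Z hZ
      obtain ⟨c2, hc2⟩ := hdec1 3 (by norm_num)
      have hg : IntegrableOn (fun y : ℝ => c2 * y ^ (-(349 / 100) : ℝ)) (Ioi Z) :=
        (integrableOn_Ioi_rpow_of_lt (by norm_num) hZ).const_mul c2
      refine Integrable.mono' hg ?_ ?_
      · apply ContinuousOn.aestronglyMeasurable _ measurableSet_Ioi
        refine ContinuousOn.mul ?_ (hcn.mono (Ioi_subset_Ioi hZ.le))
        exact fun y hy => (Real.continuousAt_rpow_const y _ (Or.inl (lt_trans hZ hy).ne')).continuousWithinAt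
      · refine (ae_restrict_iff' measurableSet_Ioi).mpr (Filter.Eventually.of_forall fun y hy => ?_)
        have hy0 : 0 < y := lt_trans hZ hy
        rw [Real.norm_of_nonneg (by positivity)]
        calc y ^ (-(49 / 100) : ℝ) * ‖g (j + 1) v y‖ ≤ y ^ (-(49 / 100) : ℝ) * (c2 * y ^ (-3 : ℝ)) :=
              mul_le_mul_of_nonneg_left (hc2 y hy0) (by positivity)
          _ = c2 * y ^ (-(349 / 100) : ℝ) := by
              have : y ^ (-(349 / 100) : ℝ) = y ^ (-(49 / 100) : ℝ) * y ^ (-3 : ℝ) := by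
                rw [← Real.rpow_add hy0]
                norm_num
              rw [this]
              ring
    have hmain := GBA_main (fun y => ‖g (j + 1) v y‖) hcn (fun y => norm_nonneg _)
      (7 * ((j + 1 : ℕ) : ℝ) / 50) ((C1 + C2) * M) x
      (by
        have : ((j + 1 : ℕ) : ℝ) ≤ 2 := by exact_mod_cast Nat.succ_le_succ hj
        linarith)
      (by positivity) hx
      (by
        intro Y hY
        have h3 := h2 L v hL Y (by linarith) (j + 1) (by omega) (by omega)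
        rw [max_eq_right hY] at h3
        refine h3.trans ?_
        have : C2 * Y ^ (7 * ((j + 1 : ℕ) : ℝ) / 50) * M ≤ (C1 + C2) * Y ^ (7 * ((j + 1 : ℕ) : ℝ) / 50) * M := by
          apply mul_le_mul_of_nonneg_right _ hM
          apply mul_le_mul_of_nonneg_right (by linarith)
          exact Real.rpow_nonneg (by linarith) _
        refine this.trans (le_of_eq (by ring)))
      (by
        intro y hy
        have h3 := h1b (j + 1) (by omega) y hy
        refine h3.trans ?_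
        have : C1 * (y ^ (-(1 / 20) : ℝ) + y ^ (-(3 / 5) : ℝ)) * M ≤
            (C1 + C2) * (y ^ (-(1 / 20) : ℝ) + y ^ (-(3 / 5) : ℝ)) * M := by
          apply mul_le_mul_of_nonneg_right _ hM
          apply mul_le_mul_of_nonneg_right (by linarith)
          positivity
        refine this.trans (le_of_eq (by ring)))
      hint
    have hfin : ∀ w : ℝ, 0 ≤ w → ∀ I : ℝ, ‖GX g a j v x‖ ≤ C₀ * I → I ≤ (200 / 9 + R) * ((C1 + C2) * M) * w →
        ‖GX g a j v x‖ ≤ (C₀ * ((200 / 9 + R) * (C1 + C2)) + 1) * w * M := by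
      intro w hw I hI hIw
      have e1 : C₀ * I ≤ C₀ * ((200 / 9 + R) * ((C1 + C2) * M) * w) := mul_le_mul_of_nonneg_left hIw hC0.le
      have e2 : (C₀ * ((200 / 9 + R) * (C1 + C2)) + 1) * w * M =
          C₀ * ((200 / 9 + R) * ((C1 + C2) * M) * w) + w * M := by ring
      have e3 : 0 ≤ w * M := mul_nonneg hw hM
      linarith
    exact ⟨fun hx1 => hfin _ (by positivity) _ hA1 (hmain.1 hx1), fun hx1 => hfin _ (by positivity) _ hA1 (hmain.2 hx1)⟩
  have k0 := key 0 (by norm_num)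
  have k1 := key 1 le_rfl
  refine ⟨fun hx1 => ⟨k0.1 hx1, k1.1 hx1⟩, fun hx1 => ⟨?_, ?_⟩⟩
  · have := k0.2 hx1
    norm_num at this ⊢
    exact this
  · have := k1.2 hx1
    norm_num at this ⊢
    exact this

end Pool.Agent.TA
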